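import Mathlib

set_option autoImplicit false

namespace Pool.Agent.Results.MP_b82347_co.UnionThree

open SimpleGraph

/-- A graph with vertices in `V` (a subgraph of the complete graph on `V`) is `k`-critical. -/
def Critical {V : Type} (k : ℕ) (G : (⊤ : SimpleGraph V).Subgraph) : Prop :=
  G.coe.chromaticNumber = k ∧
    ∀ H : (⊤ : SimpleGraph V).Subgraph, H < G → H.coe.chromaticNumber < k

section
variable {V : Type}

/-- proper colouring by a function -/
def Pr {α : Type} (G : SimpleGraph V) (c : V → α) : Prop := ∀ a b, G.Adj a b → c a ≠ c b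

lemma flip_col (B : SimpleGraph V) (φ : V → Bool) (hφ : Pr B φ) (v w : V)
    (h : ¬ B.Reachable v w) : ∃ ψ : V → Bool, Pr B ψ ∧ ψ v ≠ ψ w := by
  classical
  by_cases hvw : φ v = φ w
  · refine ⟨fun z => if B.Reachable v z then !φ z else φ z, ?_, ?_⟩
    · intro a b hab
      have h1 := hφ a b hab
      by_cases ha : B.Reachable v a
      · have hb : B.Reachable v b := ha.trans hab.reachable
        simp only [ha, hb, if_true]
        simpa using h1
      · have hb : ¬ B.Reachable v b := fun hb => ha (hb.trans hab.symm.reachable)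
        simp only [ha, hb, if_false]
        exact h1
    · simp only [h, Reachable.refl, if_true, if_false, hvw]
      simp
  · exact ⟨φ, hφ, hvw⟩

lemma walk_xor (B : SimpleGraph V) (φ ψ : V → Bool) {v a : V} (P : B.Walk v a)
    (hφ : ∀ x y, s(x, y) ∈ P.edges → φ x ≠ φ y) (hψ : ∀ x y, s(x, y) ∈ P.edges → ψ x ≠ ψ y) :
    xor (φ v) (ψ v) = xor (φ a) (ψ a) := by
  induction P with
  | nil => rfl
  | @cons x y z hxy P ih =>
    have h1 := hφ x y (by simp)
    have h2 := hψ x y (by simp)
    rw [← ih (fun p q h => hφ p q (by simp [h])) (fun p q h => hψ p q (by simp [h]))]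
    revert h1 h2
    cases φ x <;> cases φ y <;> cases ψ x <;> cases ψ y <;> simp

lemma del_lt (H : SimpleGraph V) {v a : V} (h : H.Adj v a) : H.deleteEdges {s(v, a)} < H := by
  refine lt_of_le_of_ne (deleteEdges_le _) (fun he => ?_)
  have : (H.deleteEdges {s(v, a)}).Adj v a := by rw [he]; exact h
  simp at this

lemma col_eq {α : Type} (H : SimpleGraph V) {v a : V} (hn : ∀ c : V → α, ¬ Pr H c)
    (φ : V → α) (hφ : Pr (H.deleteEdges {s(v, a)}) φ) : φ v = φ a := by
  by_contra hne
  apply hn φ
  intro x y hxy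
  by_cases he : s(x, y) = s(v, a)
  · rcases Sym2.eq_iff.mp he with ⟨rfl, rfl⟩ | ⟨rfl, rfl⟩
    · exact hne
    · exact fun h => hne h.symm
  · exact hφ x y (by simp [hxy, he])

lemma maxdeg (H : SimpleGraph V) (hn : ∀ c : V → Bool, ¬ Pr H c)
    (hc : ∀ H' < H, ∃ c : V → Bool, Pr H' c) (v a b c : V)
    (ha : H.Adj v a) (hb : H.Adj v b) (hc' : H.Adj v c) : a = b ∨ a = c ∨ b = c := by
  classical
  by_contra hne
  push Not at hne
  obtain ⟨hab, hac, hbc⟩ := hne
  obtain ⟨φ, hφ⟩ := hc _ (del_lt H ha)
  have hr : (H.deleteEdges {s(v, a)}).Reachable v a := by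
    by_contra hr
    obtain ⟨ψ, hψ, hne⟩ := flip_col _ φ hφ v a hr
    exact hne (col_eq H hn ψ hψ)
  obtain ⟨P, hP⟩ := hr.exists_isPath
  have key : ∀ d, H.Adj v d → a ≠ d → s(v, d) ∈ P.edges := by
    intro d hd had
    by_contra hnot
    obtain ⟨ψ, hψ⟩ := hc _ (del_lt H hd)
    have h1 := walk_xor _ φ ψ P
      (fun x y h => hφ x y (P.adj_of_mem_edges h))
      (fun x y h => hψ x y (by
        have h2 := P.adj_of_mem_edges h
        simp only [deleteEdges_adj, Set.mem_singleton_iff] at h2 ⊢
        exact ⟨h2.1, fun he => hnot (he ▸ h)⟩))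
    have h2 := col_eq H hn φ hφ
    have h3 : ψ v ≠ ψ a := hψ v a (by
      simp only [deleteEdges_adj, Set.mem_singleton_iff]
      refine ⟨ha, fun he => ?_⟩
      rcases Sym2.eq_iff.mp he with ⟨-, h⟩ | ⟨h, -⟩
      · exact had h
      · exact hd.ne h)
    rw [h2] at h1
    revert h1 h3
    cases φ a <;> cases ψ v <;> cases ψ a <;> simp
  have h1 := key b hb hab
  have h2 := key c hc' hac
  cases P with
  | nil => simp at h1
  | @cons _ y _ hxy Q =>
    rw [Walk.cons_isPath_iff] at hP
    simp only [Walk.edges_cons, List.mem_cons] at h1 h2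
    have aux : ∀ d, H.Adj v d → (s(v, d) = s(v, y) ∨ s(v, d) ∈ Q.edges) → d = y := by
      intro d hd h
      rcases h with h | h
      · rcases Sym2.eq_iff.mp h with ⟨-, h⟩ | ⟨-, h⟩
        · exact h
        · exact absurd h.symm hd.ne
      · exact absurd (Q.fst_mem_support_of_mem_edges h) hP.2
    exact hbc ((aux b hb h1).trans (aux c hc' h2).symm)

lemma nested (H : SimpleGraph V)
    (hd : ∀ v a b c, H.Adj v a → H.Adj v b → H.Adj v c → a = b ∨ a = c ∨ b = c)
    {x a : V} (P : H.Walk x a) : ∀ {b : V} (Q : H.Walk x b) (u : V), H.Adj x u →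
      u ∉ P.support → u ∉ Q.support → P.IsPath → Q.IsPath →
      a ∈ Q.support ∨ b ∈ P.support := by
  induction P with
  | nil => intro b Q u _ _ _ _ _; exact Or.inl Q.start_mem_support
  | @cons x y z hxy P ih =>
    intro b Q u hu hP hQ pP pQ
    cases Q with
    | nil => right; simp
    | @cons _ y' _ hxy' Q =>
      simp only [Walk.support_cons, List.mem_cons, not_or] at hP hQ ⊢
      rw [Walk.cons_isPath_iff] at pP pQ
      have : y = y' := by
        rcases hd x u y y' hu hxy hxy' with h | h | h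
        · exact absurd (h ▸ P.start_mem_support) hP.2
        · exact absurd (h ▸ Q.start_mem_support) hQ.2
        · exact h
      subst this
      rcases ih Q x hxy.symm pP.2 pQ.2 pP.1 pQ.1 with h | h
      · exact Or.inl (Or.inr h)
      · exact Or.inr (Or.inr h)

lemma three_paths (H : SimpleGraph V)
    (hd : ∀ v a b c, H.Adj v a → H.Adj v b → H.Adj v c → a = b ∨ a = c ∨ b = c)
    {v a b c : V} (P : H.Walk v a) (Q : H.Walk v b) (R : H.Walk v c)
    (pP : P.IsPath) (pQ : Q.IsPath) (pR : R.IsPath) (ha : v ≠ a) (hb : v ≠ b) (hc : v ≠ c)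
    (h1 : a ∉ Q.support) (h2 : a ∉ R.support) (h3 : b ∉ P.support) (h4 : b ∉ R.support)
    (h5 : c ∉ P.support) (h6 : c ∉ Q.support) : False := by
  cases P with
  | nil => exact ha rfl
  | @cons _ x _ hx P =>
  cases Q with
  | nil => exact hb rfl
  | @cons _ y _ hy Q =>
  cases R with
  | nil => exact hc rfl
  | @cons _ z _ hz R =>
  simp only [Walk.support_cons, List.mem_cons, not_or] at h1 h2 h3 h4 h5 h6
  rw [Walk.cons_isPath_iff] at pP pQ pR
  rcases hd v x y z hx hy hz with rfl | rfl | rfl
  · rcases nested H hd P Q v hx.symm pP.2 pQ.2 pP.1 pQ.1 with h | h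
    · exact h1.2 h
    · exact h3.2 h
  · rcases nested H hd P R v hx.symm pP.2 pR.2 pP.1 pR.1 with h | h
    · exact h2.2 h
    · exact h5.2 h
  · rcases nested H hd Q R v hy.symm pQ.2 pR.2 pQ.1 pR.1 with h | h
    · exact h4.2 h
    · exact h6.2 h

lemma two_others {m : ℕ} (hm : 3 ≤ m) (i : Fin m) :
    ∃ j k : Fin m, j ≠ i ∧ k ≠ i ∧ j ≠ k := by
  classical
  have : 1 < ((Finset.univ : Finset (Fin m)).erase i).card := by
    rw [Finset.card_erase_of_mem (Finset.mem_univ _)]; simp; omega
  obtain ⟨j, hj, k, hk, hjk⟩ := Finset.one_lt_card.mp this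
  exact ⟨j, k, (Finset.mem_erase.mp hj).1, (Finset.mem_erase.mp hk).1, hjk⟩

/-- For each edge `vw` of `K` there is an `H`-path from `v` to `w` missing the other
`K`-neighbours of `v`. -/
lemma step (H K : SimpleGraph V) {m : ℕ} (hm : 3 ≤ m) (hn : ∀ c : V → Bool, ¬ Pr H c)
    (hc : ∀ H' < H, ∃ c : V → Bool, Pr H' c)
    (hK : ∀ K' < K, ∃ c : V → Fin m, Pr K' c)
    (hU : ∀ c : V → Fin m × Bool, ¬ Pr (H ⊔ K) c) {v w : V} (hvw : K.Adj v w) :
    ∃ P : H.Walk v w, P.IsPath ∧ ∀ u, K.Adj v u → u ≠ w → u ∉ P.support := by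
  classical
  obtain ⟨φ, hφ⟩ := hK _ (del_lt K hvw)
  have hφ' : ∀ x y, K.Adj x y → s(x, y) ≠ s(v, w) → φ x ≠ φ y :=
    fun x y h he => hφ x y (by simp [h, he])
  let Hi : Fin m → SimpleGraph V := fun i =>
    { Adj := fun x y => H.Adj x y ∧ φ x = i ∧ φ y = i
      symm := ⟨fun x y h => ⟨h.1.symm, h.2.2, h.2.1⟩⟩
      loopless := ⟨fun x h => h.1.ne rfl⟩ }
  by_cases hall : ∃ i, ∀ x y, H.Adj x y → φ x = i
  · exfalso
    obtain ⟨i, hi⟩ := hall
    obtain ⟨j, k, hj, hk, hjk⟩ := two_others hm i
    have : ∃ x y, H.Adj x y := by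
      by_contra hne
      push Not at hne
      exact hn (fun _ => true) (fun a b h => absurd h (hne a b))
    obtain ⟨x, y, hxy⟩ := this
    obtain ⟨η, hη⟩ := hc _ (del_lt H hxy)
    apply hU (fun z => if z = x then (j, true) else if z = v then (k, true)
      else (φ z, if φ z = i then η z else false))
    intro a b hab
    have hne : a ≠ b := hab.ne
    have aux : ∀ (t : Fin m) (z : V), t ≠ i →
        (t, true) ≠ (φ z, if φ z = i then η z else false) := by
      intro t z ht h
      simp only [Prod.mk.injEq] at h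
      rw [← h.1] at h
      simp [ht] at h
    by_cases hax : a = x
    · have hbx : b ≠ x := fun h => hne (hax.trans h.symm)
      simp only [hax, hbx, if_true, if_false]
      split_ifs with hbv
      · simpa using hjk
      all_goals (have := aux j b hj; simp_all)
    · by_cases hbx : b = x
      · simp only [hax, hbx, if_true, if_false]
        split_ifs with hav
        · simpa using hjk.symm
        all_goals (have := (aux j a hj).symm; simp_all)
      · simp only [hax, hbx, if_false]
        by_cases hav : a = v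
        · have hbv : b ≠ v := fun h => hne (hav.trans h.symm)
          simp only [hav, hbv, if_true, if_false]
          exact aux k b hk
        · by_cases hbv : b = v
          · simp only [hav, hbv, if_true, if_false]
            exact (aux k a hk).symm
          · simp only [hav, hbv, if_false]
            rcases hab with hab | hab
            · have h1 := hi a b hab
              have h2 := hi b a hab.symm
              have h3 : η a ≠ η b := hη a b (by
                simp only [deleteEdges_adj, Set.mem_singleton_iff]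
                refine ⟨hab, fun he => ?_⟩
                rcases Sym2.eq_iff.mp he with ⟨h, -⟩ | ⟨-, h⟩
                · exact hax h
                · exact hbx h)
              simp [h1, h2, h3]
            · have h3 : φ a ≠ φ b := hφ' a b hab (fun he => by
                rcases Sym2.eq_iff.mp he with ⟨h, -⟩ | ⟨-, h⟩
                · exact hav h
                · exact hbv h)
              simp [h3]
  · push Not at hall
    have hlt : ∀ i, Hi i < H := by
      intro i
      obtain ⟨x, y, hxy, hx⟩ := hall i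
      refine lt_of_le_of_ne (fun a b h => h.1) (fun he => ?_)
      have : (Hi i).Adj x y := by rw [he]; exact hxy
      exact hx this.2.1
    choose η hη using fun i => hc _ (hlt i)
    let B : SimpleGraph V :=
      { Adj := fun x y => H.Adj x y ∧ φ x = φ y
        symm := ⟨fun x y h => ⟨h.1.symm, h.2.symm⟩⟩
        loopless := ⟨fun x h => h.1.ne rfl⟩ }
    have hB : Pr B (fun z => η (φ z) z) := by
      intro a b hab
      have := hη (φ a) a b ⟨hab.1, rfl, hab.2.symm⟩
      simpa [← hab.2] using this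
    have hr : B.Reachable v w := by
      by_contra hr
      obtain ⟨ψ, hψ, hne⟩ := flip_col B _ hB v w hr
      apply hU (fun z => (φ z, ψ z))
      intro a b hab h
      simp only [Prod.mk.injEq] at h
      rcases hab with hab | hab
      · exact hψ a b ⟨hab, h.1⟩ h.2
      · by_cases he : s(a, b) = s(v, w)
        · rcases Sym2.eq_iff.mp he with ⟨rfl, rfl⟩ | ⟨rfl, rfl⟩
          · exact hne h.2
          · exact hne h.2.symm
        · exact hφ' a b hab he h.1
    obtain ⟨P, hP⟩ := hr.exists_isPath
    have hle : B ≤ H := fun a b h => h.1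
    have hsupp : ∀ {x y : V} (Q : B.Walk x y), ∀ u ∈ Q.support, φ u = φ x := by
      intro x y Q
      induction Q with
      | nil => intro u hu; simp at hu; rw [hu]
      | cons hxy Q ih =>
        intro u hu
        simp only [Walk.support_cons, List.mem_cons] at hu
        rcases hu with rfl | hu
        · rfl
        · rw [ih u hu]; exact hxy.2.symm
    refine ⟨P.mapLe hle, hP.mapLe hle, fun u hu huw hmem => ?_⟩
    rw [Walk.support_mapLe_eq_support] at hmem
    refine hφ' v u hu (fun he => ?_) (hsupp P u hmem).symm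
    rcases Sym2.eq_iff.mp he with ⟨-, h⟩ | ⟨h, -⟩
    · exact huw h
    · exact hvw.ne h

lemma mindeg (K : SimpleGraph V) {m : ℕ} (hm : 3 ≤ m) (hn : ∀ c : V → Fin m, ¬ Pr K c)
    (hK : ∀ K' < K, ∃ c : V → Fin m, Pr K' c) :
    ∃ v a b c, K.Adj v a ∧ K.Adj v b ∧ K.Adj v c ∧ a ≠ b ∧ a ≠ c ∧ b ≠ c := by
  classical
  have : ∃ x y, K.Adj x y := by
    by_contra hne
    push Not at hne
    exact hn (fun _ => ⟨0, by omega⟩) (fun a b h => absurd h (hne a b))
  obtain ⟨v, w, hvw⟩ := this
  obtain ⟨φ, hφ⟩ := hK _ (del_lt K hvw)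
  have heq := col_eq K hn φ hφ
  have key : ∀ j, j ≠ φ v → ∃ u, K.Adj v u ∧ φ u = j := by
    intro j hj
    by_contra hno
    push Not at hno
    apply hn (fun z => if z = v then j else φ z)
    intro a b hab
    have hne := hab.ne
    by_cases hav : a = v
    · subst hav
      simp only [if_true, hne.symm, if_false]
      exact (hno b hab).symm
    · by_cases hbv : b = v
      · subst hbv
        simp only [if_true, hav, if_false]
        exact hno a hab.symm
      · simp only [hav, hbv, if_false]
        refine hφ a b ?_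
        simp only [deleteEdges_adj, Set.mem_singleton_iff]
        refine ⟨hab, fun he => ?_⟩
        rcases Sym2.eq_iff.mp he with ⟨h, -⟩ | ⟨-, h⟩
        · exact hav h
        · exact hbv h
  obtain ⟨j, k, hj, hk, hjk⟩ := two_others hm (φ v)
  obtain ⟨b, hb, hb'⟩ := key j hj
  obtain ⟨c, hc, hc'⟩ := key k hk
  refine ⟨v, w, b, c, hvw, hb, hc, ?_, ?_, ?_⟩
  · rintro rfl; exact hj (hb'.symm.trans heq.symm)
  · rintro rfl; exact hk (hc'.symm.trans heq.symm)
  · rintro rfl; exact hjk (hb'.symm.trans hc')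

lemma main (H K : SimpleGraph V) {m : ℕ} (hm : 3 ≤ m) (hn : ∀ c : V → Bool, ¬ Pr H c)
    (hc : ∀ H' < H, ∃ c : V → Bool, Pr H' c) (hnK : ∀ c : V → Fin m, ¬ Pr K c)
    (hK : ∀ K' < K, ∃ c : V → Fin m, Pr K' c) :
    ∃ c : V → Fin m × Bool, Pr (H ⊔ K) c := by
  by_contra hU
  push Not at hU
  obtain ⟨v, a, b, c, ha, hb, hc', hab, hac, hbc⟩ := mindeg K hm hnK hK
  obtain ⟨P, pP, hP⟩ := step H K hm hn hc hK hU ha
  obtain ⟨Q, pQ, hQ⟩ := step H K hm hn hc hK hU hb
  obtain ⟨R, pR, hR⟩ := step H K hm hn hc hK hU hc'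
  exact three_paths H (maxdeg H hn hc) P Q R pP pQ pR ha.ne hb.ne hc'.ne
    (hQ a ha hab) (hR a ha hac) (hP b hb hab.symm) (hR b hb hbc)
    (hP c hc' hac.symm) (hQ c hc' hbc.symm)

lemma colorable_of_pr {α : Type} [Fintype α] (G : (⊤ : SimpleGraph V).Subgraph) (c : V → α)
    (hc : Pr G.spanningCoe c) : G.coe.Colorable (Fintype.card α) :=
  (Coloring.mk (G := G.coe) (fun x => c x) (fun {a b} h => hc a b h)).colorable

lemma critical_props {α : Type} [Fintype α] [Nonempty α] (G : (⊤ : SimpleGraph V).Subgraph)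
    (hG : Critical (Fintype.card α + 1) G) :
    (∀ c : V → α, ¬ Pr G.spanningCoe c) ∧ ∀ H' < G.spanningCoe, ∃ c : V → α, Pr H' c := by
  classical
  constructor
  · intro c hc
    have h1 := (colorable_of_pr G c hc).chromaticNumber_le
    rw [hG.1] at h1
    have : Fintype.card α + 1 ≤ Fintype.card α := by exact_mod_cast h1
    omega
  · intro H' hH'
    let S : (⊤ : SimpleGraph V).Subgraph :=
      { verts := G.verts
        Adj := H'.Adj
        adj_sub := fun h => h.ne
        edge_vert := fun h => G.edge_vert (hH'.le h)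
        symm := H'.symm }
    have hlt : S < G := by
      refine lt_of_le_of_ne ⟨fun _ h => h, fun a b h => hH'.le h⟩ (fun he => hH'.ne ?_)
      rw [← he]; rfl
    have h1 := hG.2 S hlt
    have h2 : S.coe.chromaticNumber ≤ (Fintype.card α : ℕ) := by
      push_cast at h1
      exact Order.le_of_lt_add_one h1
    have h3 : S.coe.Colorable (Fintype.card α) := chromaticNumber_le_iff_colorable.mp h2
    let C := h3.toColoring (α := α) le_rfl
    refine ⟨fun z => if h : z ∈ G.verts then C ⟨z, h⟩ else Classical.arbitrary α, ?_⟩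
    intro a b hab
    have ha : a ∈ G.verts := G.edge_vert (hH'.le hab)
    have hb : b ∈ G.verts := G.edge_vert (hH'.le hab.symm)
    simp only [ha, hb, dif_pos]
    exact C.valid (show S.coe.Adj ⟨a, ha⟩ ⟨b, hb⟩ from hab)

end

theorem result (V : Type) [Finite V] (l : ℕ) (hl : 4 ≤ l)
    (G₁ G₂ : (⊤ : SimpleGraph V).Subgraph) (h₁ : Critical 3 G₁) (h₂ : Critical l G₂) :
    (G₁ ⊔ G₂).coe.chromaticNumber ≤ ((3 - 1) * (l - 1) : ℕ) := by
  obtain ⟨m, rfl⟩ : ∃ m, l = m + 1 := ⟨l - 1, by omega⟩
  have hm : 3 ≤ m := by omega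
  have : Nonempty (Fin m) := ⟨⟨0, by omega⟩⟩
  obtain ⟨a1, a2⟩ := critical_props (α := Bool) G₁ (by simpa using h₁)
  obtain ⟨b1, b2⟩ := critical_props (α := Fin m) G₂ (by simpa using h₂)
  obtain ⟨c, hc⟩ := main _ _ hm a1 a2 b1 b2
  have := (colorable_of_pr (G₁ ⊔ G₂) c (fun a b h => hc a b h)).chromaticNumber_le
  simpa [mul_comm] using this

end Pool.Agent.Results.MP_b82347_co.UnionThree
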